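import Mathlib

/-! The rank of an abelian group and the dimension after tensoring with the complex numbers. -/

set_option autoImplicit false

namespace Pool.Agent.Q286.EQ

open TensorProduct nonZeroDivisors

theorem finrank_complex (A : Type) [AddCommGroup A] :
    Module.finrank ℂ (ℂ ⊗[ℤ] A) = Module.finrank ℤ A := by
  have h1 : Module.finrank ℚ (ℚ ⊗[ℤ] A) = Module.finrank ℤ (ℚ ⊗[ℤ] A) :=
    IsLocalization.finrank_eq ℚ ℤ⁰ le_rfl
  have h2 := IsLocalizedModule.finrank_eq ℤ⁰ (TensorProduct.mk ℤ ℚ A 1) le_rfl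
  rw [← (TensorProduct.AlgebraTensorModule.cancelBaseChange ℤ ℚ ℂ ℂ A).finrank_eq,
    Module.finrank_baseChange, h1]
  exact h2

theorem finite_complex (A : Type) [AddCommGroup A] (h : AddGroup.FG A) :
    Module.Finite ℂ (ℂ ⊗[ℤ] A) := by
  have := Module.Finite.iff_addGroup_fg.2 h
  infer_instance

end Pool.Agent.Q286.EQ
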